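import Pool.Agent.N192.MO.Tor

set_option autoImplicit false
set_option linter.unusedSectionVars false

/-!
# The Hodge groups of 1-motives and the periods
-/

open Module Function TensorProduct Matrix

noncomputable section

namespace Pool.Agent.N192.MO

open Pool.Agent.Y102 Pool.Agent.W516.DR Pool.Agent.H204R3.GP Pool.Agent.W516.KC
  Pool.Agent.H204R3.SP Pool.Agent.TH119.MX Pool.Agent.R917.OM Pool.Agent.R917.BX
open Pool.Agent.N192.GP (NN DRS UU RU LU Bt ggU SepU brk)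
open Pool.Agent.N192.GT (PtW exp_fb stab_sumW)
open Pool.Agent.R917 (lamF lamF_apply QQ QA)

variable {K J : Type} [Fintype K] [DecidableEq K] [Fintype J] [DecidableEq J]
  {g n s : K → ℕ} {d : J → ℕ}

theorem bd_mul {R : K → Type} [∀ a, Fintype (R a)] {X Y : ∀ a, Matrix (R a) (R a) ℂ} :
    fromBlocks (blockDiagonal' X) 0 0 (0 : Matrix (Σ j, Fin (d j)) (Σ j, Fin (d j)) ℂ) *
      fromBlocks (blockDiagonal' Y) 0 0 0 =
        fromBlocks (blockDiagonal' fun a => X a * Y a) 0 0 0 := by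
  rw [fromBlocks_multiply]
  simp only [Matrix.mul_zero, Matrix.zero_mul, add_zero]
  rw [← blockDiagonal'_mul]

theorem bd_zero {R : K → Type} {X : ∀ a, Matrix (R a) (R a) ℂ} (h : ∀ a, X a = 0) :
    fromBlocks (blockDiagonal' X) 0 0 (0 : Matrix (Σ j, Fin (d j)) (Σ j, Fin (d j)) ℂ) = 0 := by
  have h1 : X = 0 := funext h
  rw [h1, blockDiagonal'_zero, fromBlocks_zero]

section norms

attribute [local instance] Matrix.linftyOpNormedRing Matrix.linftyOpNormedAlgebra

theorem exp_bd {R : K → Type} [∀ a, Fintype (R a)] [∀ a, DecidableEq (R a)]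
    (X : ∀ a, Matrix (R a) (R a) ℂ) : NormedSpace.exp (blockDiagonal' X) =
      blockDiagonal' fun a => NormedSpace.exp (X a) := by
  rw [Matrix.exp_blockDiagonal']
  congr 1
  funext a
  exact Pi.coe_exp X a

end norms

theorem mt_N2 {g n s : ℕ} {A : AbVar g} (τ : Fin n → Fin s → ℚ) :
    mt ((0, 0, 0, τ) : Tup A n s) = N2 g fun i l => ((τ i l : ℚ) : ℂ) := by
  ext r r'
  rcases r with j | l | i <;> rcases r' with j' | l' | i' <;>
    simp [Pool.Agent.R917.OM.mt, mtQ, N2, op]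

variable {A : ∀ a, AbVarG (g a)} {D : ∀ a, Dt (g a) (n a) (s a)} {V : ∀ j, DRS (d j)}

/-- **The circle is contained in the group.** -/
theorem circle (hXJ : S_XJ) (hEXP : S_EXP)
    (hperf : ∀ a, ggU (UA (fun a => (A a).toAbVar) a) ≤
      brk (ggU (UA (fun a => (A a).toAbVar) a)) (ggU (UA (fun a => (A a).toAbVar) a)))
    (hNA : ∀ a, ggU (UA (fun a => (A a).toAbVar) a) =
      ((A a).toAbVar.NA : Submodule ℚ (Module.End ℚ (A a).toAbVar.H1)))
    (hV : ∀ a j, SepU (UA (fun a => (A a).toAbVar) a) ⟨d j, V j⟩)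
    (hA : ∀ a b, a ≠ b → SepU (UA (fun a => (A a).toAbVar) a) (UA (fun a => (A a).toAbVar) b))
    (hrat : ∀ a, ∃ K₁ : IntermediateField ℚ ℂ, FiniteDimensional ℚ K₁ ∧
      ∀ p (m : ℕ), IsRat (A a).toAbVar K₁ (m • pt (D a) p))
    {G : Subgroup (GL (Row g n s d) ℂ)}
    (hG : ∃ S : Set (MvPolynomial (Row g n s d × Row g n s d) ℚ), ∀ x : GL (Row g n s d) ℂ,
      x ∈ G ↔ ∀ p ∈ S, MvPolynomial.aeval
        (fun b : Row g n s d × Row g n s d => (x : Matrix _ _ ℂ) b.1 b.2) p = 0)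
    (hH : PtW (bR g n s d) (fR (fun a => (A a).toAbVar) D V)
      {M : Matrix (Row g n s d) (Row g n s d) ℂ | ∃ x ∈ G, (x : Matrix _ _ ℂ) = M}) (t : ℂ) :
    ∃ x ∈ G, (x : Matrix (Row g n s d) (Row g n s d) ℂ) =
      fromBlocks (blockDiagonal' fun a => NormedSpace.exp (t • XJ (A a).toAbVar (D a))) 0 0 1 := by
  classical
  let A' : ∀ a, AbVar (g a) := fun a => (A a).toAbVar
  choose x hx hxV τ hτ using fam_J (A := A) (d := D) (V := fun j => (⟨d j, V j⟩ : UU)) hperf hNA hV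
    hA hrat
  obtain ⟨S, hS⟩ := exists_coordsC (fun p : Σ a, RI (g a) (n a) (s a) × RI (g a) (n a) (s a) =>
    XJ (A' p.1) (D p.1) p.2.1 p.2.2)
  let c : ∀ a, Fin (n a) → Fin (s a) → ℂ := fun a i l => ∑ b ∈ S, (Basis.ofVectorSpace ℚ ℂ b) *
    ((τ ((Basis.ofVectorSpace ℚ ℂ).coord b) a i l : ℚ) : ℂ)
  let X : Matrix (Row g n s d) (Row g n s d) ℂ :=
    fromBlocks (blockDiagonal' fun a => XJ (A' a) (D a)) 0 0 0
  let N : Matrix (Row g n s d) (Row g n s d) ℂ :=
    fromBlocks (blockDiagonal' fun a => N2 (g a) (c a)) 0 0 0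
  have hXa : ∀ a, XJ (A' a) (D a) = ∑ b ∈ S, (Basis.ofVectorSpace ℚ ℂ b) •
      (XJ (A' a) (D a)).map (lamF ((Basis.ofVectorSpace ℚ ℂ).coord b)) := by
    intro a
    ext i j
    rw [Matrix.sum_apply]
    have h2 := hS ⟨a, i, j⟩
    simp only at h2
    rw [h2]
    refine Finset.sum_congr rfl fun b _ => ?_
    rw [Matrix.smul_apply, Matrix.map_apply, smul_eq_mul, mul_comm, lamF_apply]
  have hNa : ∀ a, N2 (g a) (c a) = ∑ b ∈ S, (Basis.ofVectorSpace ℚ ℂ b) •
      N2 (g a) (fun i l => ((τ ((Basis.ofVectorSpace ℚ ℂ).coord b) a i l : ℚ) : ℂ)) := by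
    intro a
    ext i j
    rw [Matrix.sum_apply]
    rcases i with i | i | i <;> rcases j with j | j | j <;> simp [N2, c]
  have hsum : X + N = ∑ b ∈ S, (Basis.ofVectorSpace ℚ ℂ b) •
      (fromBlocks (blockDiagonal' fun a => mt (tJ (A' a) (D a) ((Basis.ofVectorSpace ℚ ℂ).coord b) +
        ((0, 0, 0, τ ((Basis.ofVectorSpace ℚ ℂ).coord b) a) : Tup (A' a) (n a) (s a)))) 0 0 0 :
        Matrix (Row g n s d) (Row g n s d) ℂ) := by
    have h1 : ∀ b a, mt (tJ (A' a) (D a) ((Basis.ofVectorSpace ℚ ℂ).coord b) +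
        ((0, 0, 0, τ ((Basis.ofVectorSpace ℚ ℂ).coord b) a) : Tup (A' a) (n a) (s a))) =
        (XJ (A' a) (D a)).map (lamF ((Basis.ofVectorSpace ℚ ℂ).coord b)) +
          N2 (g a) (fun i l => ((τ ((Basis.ofVectorSpace ℚ ℂ).coord b) a i l : ℚ) : ℂ)) := by
      intro b a
      rw [mt_add, mt_tJ, mt_N2]
    simp only [h1]
    ext i j
    rw [Matrix.add_apply, Matrix.sum_apply]
    simp only [Matrix.smul_apply]
    rcases i with ⟨a, i⟩ | i <;> rcases j with ⟨a', j⟩ | j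
    · simp only [X, N, fromBlocks_apply₁₁]
      by_cases haa : a = a'
      · subst haa
        simp only [blockDiagonal'_apply_eq]
        have e1 := congrFun (congrFun (hXa a) i) j
        have e2 := congrFun (congrFun (hNa a) i) j
        rw [Matrix.sum_apply] at e1 e2
        rw [e1, e2, ← Finset.sum_add_distrib]
        refine Finset.sum_congr rfl fun b _ => ?_
        rw [Matrix.smul_apply, Matrix.smul_apply, Matrix.add_apply, smul_add]
      · simp only [blockDiagonal'_apply_ne _ _ _ haa, add_zero, smul_zero, Finset.sum_const_zero]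
    · simp [X, N]
    · simp [X, N]
    · simp [X, N]
  have hX3 : X * X * X = -X := by
    have h1 : ∀ a, XJ (A' a) (D a) * XJ (A' a) (D a) * XJ (A' a) (D a) = -XJ (A' a) (D a) :=
      fun a => (hXJ (A' a) (D a)).1
    simp only [X]
    rw [bd_mul, bd_mul, fromBlocks_neg]
    simp only [h1, neg_zero]
    rw [← blockDiagonal'_neg]
    rfl
  have hXN : X * N = 0 := by
    simp only [X, N]
    rw [bd_mul]
    exact bd_zero fun a => ((hXJ (A' a) (D a)).2 (c a)).1
  have hNX : N * X = 0 := by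
    simp only [X, N]
    rw [bd_mul]
    exact bd_zero fun a => ((hXJ (A' a) (D a)).2 (c a)).2.1
  have hNN : N * N = 0 := by
    simp only [N]
    rw [bd_mul]
    exact bd_zero fun a => ((hXJ (A' a) (D a)).2 (c a)).2.2
  obtain ⟨y, hy, hy2⟩ := hEXP hG hX3 hXN hNX hNN (fun δ => by
    rw [hsum]
    exact stab_sumW S _ fun b _ => (stab_LU (A := A') hH
      (hx ((Basis.ofVectorSpace ℚ ℂ).coord b)) (hxV _) (hτ _) δ).smul _) t
  refine ⟨y, hy, ?_⟩
  rw [hy2]
  simp only [X]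
  have h1 : t • (fromBlocks (blockDiagonal' fun a => XJ (A' a) (D a)) 0 0 0 :
      Matrix (Row g n s d) (Row g n s d) ℂ) =
      fromBlocks (blockDiagonal' fun a => t • XJ (A' a) (D a)) 0 0 0 := by
    rw [fromBlocks_smul]
    simp only [smul_zero]
    rw [← blockDiagonal'_smul]
    rfl
  rw [h1, exp_fb, NormedSpace.exp_zero, exp_bd]

end Pool.Agent.N192.MO
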