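import Pool.Agent.N192.MO.StmA

set_option autoImplicit false
set_option linter.unusedSectionVars false

/-!
# Ideals of the Lie algebra of a 1-motive
-/

open Module Function TensorProduct Matrix

noncomputable section

namespace Pool.Agent.N192.MO

open Pool.Agent.Y102 Pool.Agent.W516.DR Pool.Agent.H204R3.GP Pool.Agent.W516.KC
  Pool.Agent.H204R3.SP Pool.Agent.TH119.MX Pool.Agent.R917.OM Pool.Agent.R917.BX

section J

variable {g : ℕ} (A : AbVar g)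

theorem exists_one : ∃ f : ℝ →ₗ[ℚ] ℚ, f 1 = 1 := by
  obtain ⟨f, hf⟩ : ∃ f : ℝ →ₗ[ℚ] ℚ, f 1 ≠ 0 := by
    by_contra hcon
    push Not at hcon
    exact one_ne_zero ((Module.forall_dual_apply_eq_zero_iff ℚ (1 : ℝ)).1 hcon)
  exact ⟨(f 1)⁻¹ • f, by rw [LinearMap.smul_apply, smul_eq_mul, inv_mul_cancel₀ hf]⟩

/-- multiplication by a real number before a functional -/
def mulF (f : ℝ →ₗ[ℚ] ℚ) (e : ℝ) : ℝ →ₗ[ℚ] ℚ := f ∘ₗ LinearMap.mulLeft ℚ e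

theorem cmp_mulF (f : ℝ →ₗ[ℚ] ℚ) (e : ℝ) (x : Fin g → ℂ) :
    A.cmp f (e • x) = A.cmp (mulF f e) x := by
  funext j
  rw [AbVar.cmp_apply, AbVar.cmp_apply, map_smul, Finsupp.smul_apply]
  rfl

/-- The square of the complex structure, in terms of the components. -/
theorem neg_eq_sum {P : Type} [Fintype P] (z : P → A.H1) :
    ∃ (s : Finset (Basis.ofVectorSpaceIndex ℚ ℝ)) (f f' : Basis.ofVectorSpaceIndex ℚ ℝ →
      (ℝ →ₗ[ℚ] ℚ)), ∀ p, -z p = ∑ k ∈ s, A.cmpE (f' k) AbVar.JJ (A.cmpE (f k) AbVar.JJ (z p)) := by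
  obtain ⟨s, hs⟩ := Pool.Agent.R917.exists_coords
    (fun q : P × Fin (2 * g) => A.lam.repr (Complex.I • A.per (z q.1)) q.2)
  obtain ⟨f₁, hf₁⟩ := exists_one
  refine ⟨s, fun k => (Basis.ofVectorSpace ℚ ℝ).coord k,
    fun k => mulF f₁ (Basis.ofVectorSpace ℚ ℝ k), fun p => ?_⟩
  have h1 : Complex.I • A.per (z p) = ∑ k ∈ s, (Basis.ofVectorSpace ℚ ℝ k : ℝ) •
      A.per (A.cmpE ((Basis.ofVectorSpace ℚ ℝ).coord k) AbVar.JJ (z p)) := by
    apply A.lam.repr.injective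
    refine Finsupp.ext fun j => ?_
    rw [map_sum, Finsupp.finsetSum_apply]
    have h2 := hs (p, j)
    simp only at h2
    rw [h2]
    refine Finset.sum_congr rfl fun k _ => ?_
    have h6 : ∀ (e : ℝ) (w : A.H1), A.lam.repr (e • A.per w) j = e * ((w j : ℚ) : ℝ) := by
      intro e w
      rw [map_smul, Finsupp.smul_apply, AbVar.repr_per, smul_eq_mul]
    rw [h6, mul_comm, AbVar.cmpE_apply, AbVar.cmp_apply]
    rfl
  have h2 : -A.per (z p) = ∑ k ∈ s, (Basis.ofVectorSpace ℚ ℝ k : ℝ) • (Complex.I •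
      A.per (A.cmpE ((Basis.ofVectorSpace ℚ ℝ).coord k) AbVar.JJ (z p))) := by
    have h3 : -A.per (z p) = Complex.I • (Complex.I • A.per (z p)) := by
      rw [smul_smul, Complex.I_mul_I, neg_one_smul]
    rw [h3]
    conv_lhs => rw [h1]
    rw [Finset.smul_sum]
    exact Finset.sum_congr rfl fun k _ => smul_comm _ _ _
  have h3 := congrArg (A.cmp f₁) h2
  rw [map_neg, map_sum] at h3
  have h4 : A.cmp f₁ (A.per (z p)) = z p := by
    have h5 := A.cmp_smul_per f₁ 1 (z p)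
    rwa [one_smul, hf₁, one_smul] at h5
  rw [h4] at h3
  rw [h3]
  refine Finset.sum_congr rfl fun k _ => ?_
  rw [cmp_mulF]
  rfl

end J

/-- **Part CORE.** -/
theorem core : S_CORE := by
  intro g n s A d 𝔤 𝔫 h u hle hid hw hNA lam
  have hNA' : ∀ X ∈ A.toAbVar.NA, ∃ L ∈ 𝔤, L.1 = X ∧ L.2.1 = 0 := by
    intro X hX
    obtain ⟨L, hL, h1⟩ := hNA X hX
    exact ⟨L, hle hL, h1, hw L hL⟩
  -- elements of the unipotent part
  have hact : ∀ X ∈ A.toAbVar.NA, ∀ z ∈ uu 𝔤, (fun p => X (z p)) ∈ uu 𝔫 := by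
    rintro X hX z ⟨t, ht⟩
    obtain ⟨L, hL, h1⟩ := hNA X hX
    have h3 : -(Pool.Agent.R917.OM.br ((0, 0, z, t) : Tup A.toAbVar n s) L) ∈ 𝔫 :=
      𝔫.neg_mem (hid _ ht L hL)
    refine ⟨(-(Pool.Agent.R917.OM.br ((0, 0, z, t) : Tup A.toAbVar n s) L)).2.2.2, ?_⟩
    convert h3 using 1
    refine Prod.ext ?_ (Prod.ext ?_ (Prod.ext ?_ rfl))
    · change (0 : Module.End ℚ A.H1) = -(0 * L.1 - L.1 * 0)
      rw [zero_mul, mul_zero, sub_zero, neg_zero]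
    · change (0 : ℚ) = -0
      rw [neg_zero]
    · funext p
      change X (z p) = -(op ((0, 0, z, t) : Tup A.toAbVar n s) (L.2.2.1 p) - op L (z p))
      rw [op_apply, op_apply, h1, hw L hL]
      simp
  have hU : ∀ z ∈ uu 𝔤, z ∈ uu 𝔫 := by
    intro z hz
    obtain ⟨s', f, f', h1⟩ := neg_eq_sum A.toAbVar z
    have hJ : ∀ f : ℝ →ₗ[ℚ] ℚ, A.cmpE f AbVar.JJ ∈ A.toAbVar.NA := fun f =>
      A.MA_le_NA (A.J_mem f)
    have hsub : ∀ z ∈ uu 𝔫, z ∈ uu 𝔤 := fun z ⟨t, ht⟩ => ⟨t, hle ht⟩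
    have h2 : -z = ∑ k ∈ s', fun p => A.cmpE (f' k) AbVar.JJ (A.cmpE (f k) AbVar.JJ (z p)) := by
      funext p
      rw [Finset.sum_apply]
      exact h1 p
    have h3 : -z ∈ uu 𝔫 := by
      rw [h2]
      exact (uu 𝔫).sum_mem fun k _ => hact _ (hJ _) _ (hsub _ (hact _ (hJ _) _ hz))
    have h4 := (uu 𝔫).neg_mem h3
    rwa [neg_neg] at h4
  -- the complex structure
  have h1 := u.tJ_mem h hNA' lam
  obtain ⟨L, hL, h2⟩ := hNA _ (A.MA_le_NA (A.J_mem (fr lam)))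
  have h3 : tJ A.toAbVar d lam - L ∈ 𝔤 := 𝔤.sub_mem h1 (hle hL)
  have h4 : (tJ A.toAbVar d lam - L).2.2.1 ∈ uu 𝔤 := by
    refine ⟨(tJ A.toAbVar d lam - L).2.2.2, ?_⟩
    convert h3 using 1
    refine Prod.ext ?_ (Prod.ext ?_ rfl)
    · change (0 : Module.End ℚ A.H1) = A.cmpE (fr lam) AbVar.JJ - L.1
      rw [h2, sub_self]
    · change (0 : ℚ) = 0 - L.2.1
      rw [hw L hL, sub_zero]
  obtain ⟨t', ht'⟩ := hU _ h4
  refine ⟨t' - (tJ A.toAbVar d lam - L).2.2.2, ?_⟩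
  have h5 := 𝔫.add_mem hL ht'
  convert h5 using 1
  refine Prod.ext ?_ (Prod.ext ?_ (Prod.ext ?_ ?_))
  · change A.cmpE (fr lam) AbVar.JJ + 0 = L.1 + 0
    rw [h2]
  · change (0 : ℚ) + 0 = L.2.1 + 0
    rw [hw L hL]
  · change (tJ A.toAbVar d lam).2.2.1 + 0 = L.2.2.1 + ((tJ A.toAbVar d lam).2.2.1 - L.2.2.1)
    rw [add_zero, add_sub_cancel]
  · change (tJ A.toAbVar d lam).2.2.2 + (t' - ((tJ A.toAbVar d lam).2.2.2 - L.2.2.2)) =
      L.2.2.2 + t'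
    abel

end Pool.Agent.N192.MO
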