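import Pool.Agent.N192.MO.StmA

set_option autoImplicit false
set_option linter.unusedSectionVars false

/-!
# The structure of a 1-motive in the universal family
-/

open Module Function TensorProduct Matrix

noncomputable section

namespace Pool.Agent.N192.MO

open Pool.Agent.Y102 Pool.Agent.W516.DR Pool.Agent.H204R3.GP Pool.Agent.W516.KC
  Pool.Agent.H204R3.SP Pool.Agent.TH119.MX Pool.Agent.R917.OM
open Pool.Agent.N192.GP (NN tt DRS UU RU LU gU LU_le LU_br gU_mem DA ηA NN_reindex)
open Pool.Agent.N192.GT (tC tC_apply tC_NN PW PW_apply exists_invW)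
open Pool.Agent.R917 (lamF lamF_apply)

/-- The rank. -/
abbrev RN (g n s : ℕ) : ℕ := 2 * g + (s + n)

/-- The rows. -/
def eRow (g n s : ℕ) : RI g n s ≃ Fin (RN g n s) :=
  (Equiv.sumCongr (Equiv.refl _) finSumFinEquiv).trans finSumFinEquiv

/-- The columns. -/
def eCol (g n s : ℕ) : CI g n s ≃ Fin (RN g n s) := (ce g n s).trans (eRow g n s)

/-- The basis of the Betti side. -/
def bM (g n s : ℕ) : Basis (RI g n s) ℚ (Fin (RN g n s) → ℚ) :=
  (Pi.basisFun ℚ (Fin (RN g n s))).reindex (eRow g n s).symm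

variable {g : ℕ} (A : AbVar g) {n s : ℕ} (d : Dt g n s)

/-- The columns of the period matrix. -/
def col (c : CI g n s) : (Fin (RN g n s) → ℚ) →ₗ[ℚ] ℂ :=
  (bM g n s).constr ℚ fun r => pmat A d r c

theorem col_bM (c : CI g n s) (r : RI g n s) : col A d c (bM g n s r) = pmat A d r c :=
  Basis.constr_basis _ _ _ _

theorem indep_col : LinearIndependent ℂ (col A d) := by
  rw [Fintype.linearIndependent_iff]
  intro α h
  have h1 : ∀ r, ∑ c, α c * pmat A d r c = 0 := by
    intro r
    have h2 := LinearMap.congr_fun h (bM g n s r)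
    rw [LinearMap.sum_apply, LinearMap.zero_apply] at h2
    rw [← h2]
    refine Finset.sum_congr rfl fun c _ => ?_
    rw [LinearMap.smul_apply, col_bM, smul_eq_mul]
  have hl : ∀ l, α (Sum.inr (Sum.inl l)) = 0 := by
    intro l
    have h2 := h1 (Sum.inr (Sum.inl l))
    rw [Fintype.sum_sum_type] at h2
    rw [Fintype.sum_sum_type (fun x : Fin s ⊕ Fin n => α (Sum.inr x) * _)] at h2
    simp only [pmat, Matrix.of_apply, Sum.elim_inl, Sum.elim_inr, mul_zero, Finset.sum_const_zero,
      add_zero, zero_add, mul_ite, Finset.sum_ite_eq, Finset.mem_univ, if_true] at h2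
    exact (mul_eq_zero.1 h2).resolve_right AbVar.tau_ne
  have hc : ∀ c, α (Sum.inl c) = 0 := by
    have h2 : ∑ c, α (Sum.inl c) • A.dR c = 0 := by
      refine (Pi.basisFun ℚ (Fin (2 * g))).ext fun j => ?_
      have h3 := h1 (Sum.inl j)
      rw [Fintype.sum_sum_type] at h3
      rw [Fintype.sum_sum_type (fun x : Fin s ⊕ Fin n => α (Sum.inr x) * _)] at h3
      simp only [pmat, Matrix.of_apply, Sum.elim_inl, Sum.elim_inr, mul_zero,
        Finset.sum_const_zero, add_zero, hl, zero_mul] at h3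
      rw [LinearMap.sum_apply, LinearMap.zero_apply, Pi.basisFun_apply, ← h3]
      refine Finset.sum_congr rfl fun c _ => ?_
      rw [LinearMap.smul_apply, smul_eq_mul]
      rfl
    exact Fintype.linearIndependent_iff.1 A.indep_dR _ h2
  intro c
  rcases c with c | l | i
  · exact hc c
  · exact hl l
  · have h2 := h1 (Sum.inr (Sum.inr i))
    rw [Fintype.sum_sum_type] at h2
    rw [Fintype.sum_sum_type (fun x : Fin s ⊕ Fin n => α (Sum.inr x) * _)] at h2
    simp only [hc, hl, zero_mul, Finset.sum_const_zero, zero_add] at h2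
    simp only [pmat, Matrix.of_apply, Sum.elim_inr, mul_ite, mul_one, mul_zero,
      Finset.sum_ite_eq, Finset.mem_univ, if_true] at h2
    exact h2

/-- The de Rham-Betti structure. -/
def DM : DRS (RN g n s) :=
  ⟨fun k => col A d ((eCol g n s).symm k),
    (indep_col A d).comp _ (eCol g n s).symm.injective⟩

/-- The basis, with the index set of the rows. -/
def FM : Basis (RI g n s) ℂ ((Fin (RN g n s) → ℚ) →ₗ[ℚ] ℂ) :=
  (DM A d).basis.reindex (eRow g n s).symm

theorem FM_apply (k : RI g n s) : FM A d k = col A d ((ce g n s).symm k) := by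
  unfold FM
  rw [Basis.reindex_apply, Equiv.symm_symm, (DM A d).coe_basis]
  change col A d ((eCol g n s).symm (eRow g n s k)) = _
  unfold eCol
  rw [Equiv.symm_trans_apply, Equiv.symm_apply_apply]

theorem PW_eq : PW (bM g n s) (FM A d) = pq A d := by
  ext j k
  rw [PW_apply, FM_apply, col_bM]
  rfl

variable {A} in
/-- The endomorphism of a tuple. -/
def tm : Tup A n s →ₗ[ℚ] Module.End ℚ (Fin (RN g n s) → ℚ) where
  toFun L := Matrix.toLin (bM g n s) (bM g n s) (mtQ L)ᵀ
  map_add' L L' := by rw [mtQ_add, Matrix.transpose_add, map_add]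
  map_smul' c L := by rw [mtQ_smul, Matrix.transpose_smul, map_smul, RingHom.id_apply]

variable {A} in
theorem tC_tm (L : Tup A n s) : (tC (bM g n s) (tm L))ᵀ = mt L := by
  unfold tC tm
  simp only [LinearMap.coe_mk, AddHom.coe_mk, LinearMap.toMatrix_toLin]
  rw [← Matrix.transpose_map, Matrix.transpose_transpose]
  rfl

theorem tC_inj {W R : Type} [AddCommGroup W] [Module ℚ W] [FiniteDimensional ℚ W] [Fintype R]
    [DecidableEq R] (b : Basis R ℚ W) {X Y : Module.End ℚ W} (h : tC b X = tC b Y) : X = Y := by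
  refine b.ext fun j => b.repr.injective (Finsupp.ext fun i => ?_)
  have h1 := congrFun (congrFun h i) j
  rw [tC_apply, tC_apply] at h1
  exact_mod_cast h1

variable {A} in
theorem tm_br {L L' : Tup A n s} (hL : L.1 ∈ A.NA) (hL' : L'.1 ∈ A.NA) :
    tm (Pool.Agent.R917.OM.br L L') = tm L * tm L' - tm L' * tm L := by
  unfold tm
  simp only [LinearMap.coe_mk, AddHom.coe_mk]
  rw [mtQ_br (A.NA_skew hL) (A.NA_skew hL'), Matrix.transpose_sub, Matrix.transpose_mul,
    Matrix.transpose_mul, map_sub, Matrix.toLin_mul (bM g n s) (bM g n s) (bM g n s),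
    Matrix.toLin_mul (bM g n s) (bM g n s) (bM g n s)]
  rfl

theorem NN_DM (D : Derivation QBar ℂ ℂ) (lam : ℂ →ₗ[ℚ] ℚ) :
    NN (DM A d).basis D lam = tm (LD A d D lam) := by
  have h0 : NN (DM A d).basis D lam = NN (FM A d) D lam := by
    unfold FM
    rw [NN_reindex]
  obtain ⟨P', h1, h2⟩ := exists_invW (bM g n s) (FM A d)
  refine tC_inj (bM g n s) (Matrix.transpose_injective ?_)
  rw [h0, tC_NN (bM g n s) (FM A d) D h2 lam, tC_tm, mt_LD, PW_eq]
  rw [PW_eq] at h1
  congr 1
  have h7 : YD A d D * pq A d = (pq A d).map D := by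
    have h9 : (YD A d D * pmat A d).submatrix id (ce g n s).symm = YD A d D * pq A d := by
      ext i j
      rfl
    rw [← h9, YD_mul]
    ext i j
    rfl
  rw [← h7, Matrix.mul_assoc, h1, Matrix.mul_one]

section Rel

variable {I : Type} {g : I → ℕ} (A : ∀ i, AbVar (g i)) (i : I) {n s : ℕ} (d : Dt (g i) n s)

/-- The 1-motive as a member of the universal family. -/
def UM : UU := ⟨RN (g i) n s, DM (A i) d⟩

/-- The abelian variety as a member of the universal family. -/
def UA : UU := ⟨2 * g i, DA A i⟩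

/-- An element of the universal algebra acts on the 1-motive by the tuple `L`. -/
structure Rl (x : RU) (L : Tup (A i) n s) : Prop where
  na : L.1 ∈ (A i).NA
  mot : (x.1 (UM A i d) : Module.End ℚ (Fin (RN (g i) n s) → ℚ)) = tm L
  ab : (x.1 (UA A i) : Module.End ℚ (Fin (2 * g i) → ℚ)) = op L
  tw : x.2 = 2 * L.2.1

variable {A i d}

theorem Rl.add {x y : RU} {L L' : Tup (A i) n s} (h : Rl A i d x L) (h' : Rl A i d y L') :
    Rl A i d (x + y) (L + L') where
  na := (A i).NA.add_mem h.na h'.na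
  mot := by
    rw [map_add, ← h.mot, ← h'.mot]
    rfl
  ab := by
    rw [op_add, ← h.ab, ← h'.ab]
    rfl
  tw := by
    rw [Prod.snd_add, h.tw, h'.tw, Prod.snd_add, Prod.fst_add]
    ring

theorem Rl.smul {x : RU} {L : Tup (A i) n s} (c : ℚ) (h : Rl A i d x L) :
    Rl A i d (c • x) (c • L) where
  na := (A i).NA.smul_mem c h.na
  mot := by
    rw [map_smul, ← h.mot]
    rfl
  ab := by
    rw [op_smul, ← h.ab]
    rfl
  tw := by
    rw [Prod.smul_snd, h.tw, Prod.smul_snd, Prod.smul_fst, smul_eq_mul, smul_eq_mul]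
    ring

theorem Rl.zero : Rl A i d 0 0 where
  na := (A i).NA.zero_mem
  mot := by
    rw [map_zero]
    rfl
  ab := by
    have h1 : op (0 : Tup (A i) n s) = 0 := by
      unfold op
      rw [Prod.fst_zero, Prod.snd_zero, Prod.fst_zero, zero_smul, add_zero]
    rw [h1]
    rfl
  tw := by
    rw [Prod.snd_zero, Prod.snd_zero, Prod.fst_zero, mul_zero]

theorem Rl.br {x y : RU} {L L' : Tup (A i) n s} (h : Rl A i d x L) (h' : Rl A i d y L') :
    Rl A i d (x * y - y * x) (Pool.Agent.R917.OM.br L L') where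
  na := (A i).NA_bracket h.na h'.na
  mot := by
    rw [tm_br h.na h'.na, ← h.mot, ← h'.mot]
    rfl
  ab := by
    have h1 : op (Pool.Agent.R917.OM.br L L') = op L * op L' - op L' * op L :=
      LinearMap.ext fun w => op_br L L' w
    rw [h1, ← h.ab, ← h'.ab]
    rfl
  tw := by
    change x.2 * y.2 - y.2 * x.2 = 2 * 0
    rw [mul_comm, sub_self, mul_zero]

theorem Rl.gen (D : Derivation QBar ℂ ℂ) (lam : ℂ →ₗ[ℚ] ℚ) :
    Rl A i d (gU D lam) (LD (A i) d D lam) where
  na := (A i).LA_le_NA (by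
    rw [AbVar.LA_eq]
    exact X0_mem (A i).basis AbVar.tau_ne D lam)
  mot := NN_DM (A i) d D lam
  ab := by
    rw [op_LD]
    change NN (DA A i).basis D lam = _
    have h1 : (DA A i).basis = ηA A i :=
      Basis.eq_of_apply_eq fun j => congrFun (DA A i).coe_basis j
    rw [h1]
    unfold ηA
    rw [NN_reindex]
    rfl
  tw := by
    change lam (D tau / tau) = 2 * lam (D tau / (2 * tau))
    have h2 : D tau / tau = (2 : ℚ) • (D tau / (2 * tau)) := by
      rw [Rat.smul_def, mul_comm (2 : ℂ) tau, ← div_div]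
      push_cast
      ring
    rw [h2, map_smul, smul_eq_mul]

variable (A i d) in
/-- Every element of the universal Lie algebra acts by a tuple. -/
theorem exists_Rl {x : RU} (hx : x ∈ LU) : ∃ L : Tup (A i) n s, Rl A i d x L := by
  let 𝔩 : Submodule ℚ RU :=
    { carrier := {x | ∃ L : Tup (A i) n s, Rl A i d x L}
      zero_mem' := ⟨0, Rl.zero⟩
      add_mem' := fun ⟨L, hL⟩ ⟨L', hL'⟩ => ⟨L + L', hL.add hL'⟩
      smul_mem' := fun c _ ⟨L, hL⟩ => ⟨c • L, hL.smul c⟩ }
  have h1 : LU ≤ 𝔩 := LU_le (fun x ⟨L, hL⟩ y ⟨L', hL'⟩ => ⟨Pool.Agent.R917.OM.br L L', hL.br hL'⟩)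
    fun D lam => ⟨_, Rl.gen D lam⟩
  exact h1 hx

end Rel

end Pool.Agent.N192.MO
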