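import Pool.Agent.N192.MO.StmA

set_option autoImplicit false
set_option linter.unusedSectionVars false
set_option linter.unusedVariables false

/-!
# The exceptional members for a given structure, also for rank three
-/

open Module Function TensorProduct

noncomputable section

namespace Pool.Agent.N192.GP

open Pool.Agent.Y102 Pool.Agent.W516.DR Pool.Agent.H204R3.GP Pool.Agent.W516.KC
  Pool.Agent.H204R3.SP

section

variable {I J : Type} [Fintype I] [DecidableEq I] [Fintype J] [DecidableEq J]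
  {g : I → ℕ} {A : ∀ i, AbVar (g i)} {d : J → ℕ} {V : ∀ j, DRS (d j)}

/-- Members without homomorphisms are separated. -/
theorem sep_pair3 (hHOM : S_HOM) {r k : I → ℕ} (hsp : ∀ i, SpinMatK (A i) (k i) (r i))
    (h6 : ∀ i, r i = 3 ∨ 6 ≤ r i) (hni : ∀ i, NoIdeals (A i).NA)
    (hom : ∀ i i', i ≠ i' → ∀ f : (A i).H1 →ₗ[ℚ] (A i').H1, IsHomAb (A i) (A i') f → f = 0)
    (i i' : I) (hne : i ≠ i') : Sep (ηη A V) (Sum.inl i) (Sum.inl i') := by
  have hgg : ∀ i, gg (ηη A V) (Sum.inl i) = (A i).NA := fun i => gg_eq (hsp i).mat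
  have hni' : ∀ i, NoIdeals (gg (ηη A V) (Sum.inl i)) := fun i => by rw [hgg]; exact hni i
  have hK : ∀ i, SpinK (gg (ηη A V) (Sum.inl i)) (k i) (r i) := fun i => by
    rw [hgg]; exact (hsp i).spin
  have h3 : ∀ i, 3 ≤ r i := fun i => by
    rcases h6 i with h | h <;> omega
  have hperf : ∀ i, gg (ηη A V) (Sum.inl i) ≤
      brk (gg (ηη A V) (Sum.inl i)) (gg (ηη A V) (Sum.inl i)) := fun i =>
    (hK i).spin.perf (h3 i)
  by_cases hr : r i = r i'
  · rcases link_or_sep (hni' i) (hni' i') (hperf i) with h | h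
    swap
    · exact h
    by_cases hb : gg (ηη A V) (Sum.inl i) = ⊥
    · unfold Sep
      rw [hb]
      exact bot_le
    obtain ⟨f, hf, hf1⟩ := hHOM h (hsp i).mat (by rw [hr]; exact (hsp i').mat)
      (h6 i) hb
    exact absurd (hom i i' hne f hf1) hf
  · refine sep_pair (hK i).spin (hK i').spin (h3 i) (h3 i') hr ?_
    rcases h6 i with h | h
    · rcases h6 i' with h' | h'
      · exact absurd (h.trans h'.symm) hr
      · exact h'.trans (le_max_right _ _)
    · exact h.trans (le_max_left _ _)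

/-- **The number of exceptional members.** -/
theorem exc_dim3 (hHOM : S_HOM) (hFAM : S_FAM) {r k : I → ℕ}
    (hsp : ∀ i, SpinMatK (A i) (k i) (r i)) (h6 : ∀ i, r i = 3 ∨ 6 ≤ r i)
    (hni : ∀ i, NoIdeals (A i).NA)
    (hom : ∀ i i', i ≠ i' → ∀ f : (A i).H1 →ₗ[ℚ] (A i').H1, IsHomAb (A i) (A i') f → f = 0)
    {m : ℕ} (U : DRS m) (hU : ∀ i, ¬SepU ⟨2 * g i, DA A i⟩ ⟨m, U⟩) :
    ∑ i, k i * beta3 (r i) ≤ m := by
  let V : Unit → DRS m := fun _ => U
  have hgg : ∀ i, gg (ηη A V) (Sum.inl i) = (A i).NA := fun i => gg_eq (hsp i).mat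
  have hni' : ∀ i, NoIdeals (gg (ηη A V) (Sum.inl i)) := fun i => by rw [hgg]; exact hni i
  have hK : ∀ i, SpinK (gg (ηη A V) (Sum.inl i)) (k i) (r i) := fun i => by
    rw [hgg]; exact (hsp i).spin
  have h1 := hFAM (η := ηη A V) (S := Finset.univ.map ⟨Sum.inl, Sum.inl_injective⟩)
    (u := Sum.inr ()) (k := Sum.elim k fun _ => 0) (r := Sum.elim r fun _ => 0)
    (fun s hs => by
      obtain ⟨i, -, rfl⟩ := Finset.mem_map.1 hs
      exact h6 i)
    (fun s hs => by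
      obtain ⟨i, -, rfl⟩ := Finset.mem_map.1 hs
      exact hK i)
    (fun s hs => by
      obtain ⟨i, -, rfl⟩ := Finset.mem_map.1 hs
      exact hni' i)
    (fun s hs t ht hst => by
      obtain ⟨i, -, rfl⟩ := Finset.mem_map.1 hs
      obtain ⟨i', -, rfl⟩ := Finset.mem_map.1 ht
      exact sep_pair3 hHOM hsp h6 hni hom i i' fun h => hst (by rw [h]))
    (fun s hs => by
      obtain ⟨i, -, rfl⟩ := Finset.mem_map.1 hs
      exact fun h => hU i (sepU_of_final (V := V) h))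
  rw [Finset.sum_map] at h1
  exact h1

/-- The separation in the universal family. -/
theorem sepU_pair3 (hHOM : S_HOM) {r k : I → ℕ} (hsp : ∀ i, SpinMatK (A i) (k i) (r i))
    (h6 : ∀ i, r i = 3 ∨ 6 ≤ r i) (hni : ∀ i, NoIdeals (A i).NA)
    (hom : ∀ i i', i ≠ i' → ∀ f : (A i).H1 →ₗ[ℚ] (A i').H1, IsHomAb (A i) (A i') f → f = 0)
    (i i' : I) (hne : i ≠ i') : SepU ⟨2 * g i, DA A i⟩ ⟨2 * g i', DA A i'⟩ := by
  let V : Empty → DRS 0 := fun j => j.elim
  have h := sep_pair3 (V := V) hHOM hsp h6 hni hom i i' hne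
  have h0 := map_resU (ηη A V) (σσ A V) (ρρ A V) (ρρ_NN A V)
  intro X hX
  rw [ggU_eq A V i] at hX
  obtain ⟨ℓ, ⟨hℓ, h1⟩, h2⟩ := h hX
  rw [← h0] at hℓ
  obtain ⟨y, hy, rfl⟩ := hℓ
  exact ⟨y, ⟨hy, h1⟩, h2⟩

end

end Pool.Agent.N192.GP
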