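import Pool.Agent.N192.MO.Def
import Pool.Agent.N192.MO.Core

set_option autoImplicit false
set_option linter.unusedSectionVars false

/-!
# Separation of abelian varieties from 1-motives
-/

open Module Function TensorProduct Matrix

noncomputable section

namespace Pool.Agent.N192.MO

open Pool.Agent.Y102 Pool.Agent.W516.DR Pool.Agent.H204R3.GP Pool.Agent.W516.KC
  Pool.Agent.H204R3.SP Pool.Agent.TH119.MX Pool.Agent.R917.OM Pool.Agent.R917.BX
open Pool.Agent.N192.GP (NN tt DRS UU RU LU gU LU_le LU_br gU_mem DA ηA NN_reindex atU twU brU_snd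
  brU_fst prU prU_apply prU_hm ggU SepU Br Idl Hm brk step ribet)

theorem idl_atU (V : UU) : Idl (LU ⊓ atU V) LU := by
  refine ⟨inf_le_left, fun x hx y hy => ⟨LU_br x hx y hy.1, ?_⟩⟩
  have e1 : y.1 V = 0 := hy.2
  change (x * y - y * x).1 V = 0
  rw [brU_fst, e1, mul_zero, zero_mul, sub_zero]

theorem idl_twU : Idl (LU ⊓ twU) LU :=
  ⟨inf_le_left, fun x hx y hy => ⟨LU_br x hx y hy.1, brU_snd x y⟩⟩

theorem sep_twU {s : UU} (hperf : ggU s ≤ brk (ggU s) (ggU s)) :
    ggU s ≤ (LU ⊓ twU).map (prU s) :=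
  step (prU_hm s LU) hperf le_rfl le_rfl le_rfl le_rfl fun x hx y hy =>
    ⟨LU_br x hx y hy, brU_snd x y⟩

section Sep

variable {I : Type} {g : I → ℕ} (A : ∀ i, AbVar (g i)) (i : I) {n s : ℕ} (d : Dt (g i) n s)

/-- The elements which act on the 1-motive by unipotent tuples, without the part `z` if `b`. -/
def lv (b : Bool) : Submodule ℚ RU where
  carrier := {x | x ∈ LU ∧ ∃ L : Tup (A i) n s, Rl A i d x L ∧ L.1 = 0 ∧ L.2.1 = 0 ∧
    (b = true → L.2.2.1 = 0)}
  zero_mem' := ⟨LU.zero_mem, 0, Rl.zero, rfl, rfl, fun _ => rfl⟩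
  add_mem' := by
    rintro x y ⟨hx, L, h1, h2, h3, h4⟩ ⟨hy, L', h1', h2', h3', h4'⟩
    refine ⟨LU.add_mem hx hy, L + L', h1.add h1', ?_, ?_, fun hb => ?_⟩
    · rw [Prod.fst_add, h2, h2', add_zero]
    · rw [Prod.snd_add, Prod.fst_add, h3, h3', add_zero]
    · rw [Prod.snd_add, Prod.snd_add, Prod.fst_add, h4 hb, h4' hb, add_zero]
  smul_mem' := by
    rintro c x ⟨hx, L, h1, h2, h3, h4⟩
    refine ⟨LU.smul_mem c hx, c • L, h1.smul c, ?_, ?_, fun hb => ?_⟩
    · rw [Prod.smul_fst, h2, smul_zero]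
    · rw [Prod.smul_snd, Prod.smul_fst, h3, smul_zero]
    · rw [Prod.smul_snd, Prod.smul_snd, Prod.smul_fst, h4 hb, smul_zero]

theorem lv_le (b : Bool) : lv A i d b ≤ LU := fun _ hx => hx.1

variable {A i d}

theorem op_zero {L : Tup (A i) n s} (h1 : L.1 = 0) (h2 : L.2.1 = 0) (w : (A i).H1) :
    op L w = 0 := by
  rw [op_apply, h1, h2, LinearMap.zero_apply, zero_smul, add_zero]

/-- **A member which is separated from the abelian variety is separated from the 1-motive.** -/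
theorem sepU_UM {t : UU} (hperf : ggU t ≤ brk (ggU t) (ggU t)) (h : SepU t (UA A i)) :
    SepU t (UM A i d) := by
  have h1 : ggU t ≤ (lv A i d false).map (prU t) := by
    refine step (prU_hm t LU) hperf inf_le_left inf_le_left h h fun x hx y hy => ?_
    have hbr : x * y - y * x ∈ LU := LU_br x hx.1 y hy.1
    obtain ⟨L, hL⟩ := exists_Rl A i d hbr
    have e1 : x.1 (UA A i) = 0 := hx.2
    have e2 : (x * y - y * x).1 (UA A i) = 0 := by
      rw [brU_fst, e1, zero_mul, mul_zero, sub_zero]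
    have e3 : L.2.1 = 0 := by
      have h3 := hL.tw
      rw [brU_snd] at h3
      linarith
    refine ⟨hbr, L, hL, ?_, e3, fun hb => absurd hb Bool.false_ne_true⟩
    have h3 := hL.ab
    have h4 : op L = L.1 := by
      unfold op
      rw [e3, zero_smul, add_zero]
    rw [← h4, ← h3]
    exact e2
  have h2 : ggU t ≤ (lv A i d true).map (prU t) := by
    refine step (prU_hm t LU) hperf (lv_le A i d _) (lv_le A i d _) h1 h1 ?_
    rintro x ⟨hx, L, g1, g2, g3, -⟩ y ⟨hy, L', g1', g2', g3', -⟩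
    refine ⟨LU_br x hx y hy, _, g1.br g1', ?_, rfl, fun _ => ?_⟩
    · change L.1 * L'.1 - L'.1 * L.1 = 0
      rw [g2, g2', mul_zero, sub_zero]
    · funext p
      change op L (L'.2.2.1 p) - op L' (L.2.2.1 p) = 0
      rw [op_zero g2 g3, op_zero g2' g3', sub_zero]
  refine step (prU_hm t LU) hperf (lv_le A i d _) (lv_le A i d _) h1 h2 ?_
  rintro x ⟨hx, L, g1, g2, g3, -⟩ y ⟨hy, L', g1', g2', g3', g4'⟩
  refine ⟨LU_br x hx y hy, ?_⟩
  have h3 : Pool.Agent.R917.OM.br L L' = 0 := by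
    refine Prod.ext ?_ (Prod.ext rfl (Prod.ext ?_ ?_))
    · change L.1 * L'.1 - L'.1 * L.1 = 0
      rw [g2, g2', mul_zero, sub_zero]
    · funext p
      change op L (L'.2.2.1 p) - op L' (L.2.2.1 p) = 0
      rw [op_zero g2 g3, op_zero g2' g3', sub_zero]
    · funext a b
      change (A i).om (L.2.2.1 (Sum.inr b)) (L'.2.2.1 (Sum.inl a)) -
        (A i).om (L'.2.2.1 (Sum.inr b)) (L.2.2.1 (Sum.inl a)) + 2 * L.2.1 * L'.2.2.2 a b -
          2 * L'.2.1 * L.2.2.2 a b = 0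
      rw [g4' rfl, g3, g3']
      simp
  have h4 := (g1.br g1').mot
  rw [h3, map_zero] at h4
  exact h4

end Sep

section Fam

variable {K J : Type} [Fintype K] [DecidableEq K] [Fintype J] {g n s : K → ℕ}
  (A : ∀ a, AbVarG (g a)) (d : ∀ a, Dt (g a) (n a) (s a)) (V : J → UU)

/-- The ideal of the elements which act trivially on all members except `a`. -/
def kid (a : K) : Option (J ⊕ K) → Submodule ℚ RU
  | none => LU ⊓ twU
  | some (Sum.inl j) => LU ⊓ atU (V j)
  | some (Sum.inr b) => if b = a then LU else LU ⊓ atU (UM (fun a => (A a).toAbVar) b (d b))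

theorem kid_idl (a : K) (b : Option (J ⊕ K)) : Idl (kid A d V a b) LU := by
  rcases b with _ | j | b
  · exact idl_twU
  · exact idl_atU _
  · change Idl (if b = a then LU else LU ⊓ atU (UM (fun a => (A a).toAbVar) b (d b))) LU
    split_ifs
    · exact ⟨le_rfl, fun x hx y hy => LU_br x hx y hy⟩
    · exact idl_atU _

/-- The intersection. -/
def kId (a : K) : Submodule ℚ RU := LU ⊓ ⨅ b ∈ (Finset.univ : Finset (Option (J ⊕ K))), kid A d V a b

variable {A d V}

theorem mem_kId {a : K} {x : RU} (hx : x ∈ kId A d V a) (b : Option (J ⊕ K)) :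
    x ∈ kid A d V a b :=
  (Submodule.mem_iInf _).1 ((Submodule.mem_iInf _).1 hx.2 b) (Finset.mem_univ b)

theorem kId_br {a : K} {x y : RU} (hx : x ∈ LU) (hy : y ∈ kId A d V a) :
    x * y - y * x ∈ kId A d V a := by
  refine ⟨LU_br x hx y hy.1, ?_⟩
  simp only [SetLike.mem_coe, Submodule.mem_iInf]
  intro b _
  exact (kid_idl A d V a b).2 x hx y (mem_kId hy b)

theorem kId_tw {a : K} {x : RU} (hx : x ∈ kId A d V a) : x.2 = 0 := (mem_kId hx none).2

theorem kId_V {a : K} {x : RU} (hx : x ∈ kId A d V a) (j : J) : x.1 (V j) = 0 :=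
  (mem_kId hx (some (Sum.inl j))).2

theorem kId_M {a b : K} {x : RU} (hx : x ∈ kId A d V a) (hb : b ≠ a) :
    x.1 (UM (fun a => (A a).toAbVar) b (d b)) = 0 := by
  have h1 := mem_kId hx (some (Sum.inr b))
  simp only [kid, if_neg hb] at h1
  exact h1.2

/-- **The complex structures of the 1-motives, up to weight `-2`.** -/
theorem fam_J
    (hperf : ∀ a, ggU (UA (fun a => (A a).toAbVar) a) ≤
      brk (ggU (UA (fun a => (A a).toAbVar) a)) (ggU (UA (fun a => (A a).toAbVar) a)))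
    (hNA : ∀ a, ggU (UA (fun a => (A a).toAbVar) a) =
      ((A a).toAbVar.NA : Submodule ℚ (Module.End ℚ (A a).toAbVar.H1)))
    (hV : ∀ a j, SepU (UA (fun a => (A a).toAbVar) a) (V j))
    (hA : ∀ a b, a ≠ b → SepU (UA (fun a => (A a).toAbVar) a) (UA (fun a => (A a).toAbVar) b))
    (hrat : ∀ a, ∃ K₁ : IntermediateField ℚ ℂ, FiniteDimensional ℚ K₁ ∧
      ∀ p (m : ℕ), IsRat (A a).toAbVar K₁ (m • pt (d a) p)) (lam : ℂ →ₗ[ℚ] ℚ) :
    ∃ x ∈ LU, (∀ j, x.1 (V j) = 0) ∧ ∀ a, ∃ τ : Fin (n a) → Fin (s a) → ℚ,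
      (x.1 (UM (fun a => (A a).toAbVar) a (d a)) : Module.End ℚ (Fin (RN (g a) (n a) (s a)) → ℚ)) =
        tm (tJ (A a).toAbVar (d a) lam + ((0, 0, 0, τ) : Tup (A a).toAbVar (n a) (s a))) := by
  classical
  have key : ∀ a, ∃ x ∈ kId A d V a, ∃ τ : Fin (n a) → Fin (s a) → ℚ,
      Rl (fun a => (A a).toAbVar) a (d a) x
        (tJ (A a).toAbVar (d a) lam + ((0, 0, 0, τ) : Tup (A a).toAbVar (n a) (s a))) := by
    intro a
    have h1 : ggU (UA (fun a => (A a).toAbVar) a) ≤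
        (kId A d V a).map (prU (UA (fun a => (A a).toAbVar) a)) := by
      refine ribet (prU_hm _ LU) (hperf a) le_rfl (kid_idl A d V a) Finset.univ fun b _ => ?_
      rcases b with _ | j | b
      · exact sep_twU (hperf a)
      · exact hV a j
      · change _ ≤ (if b = a then LU else LU ⊓ atU (UM (fun a => (A a).toAbVar) b (d b))).map _
        split_ifs with hb
        · exact le_rfl
        · exact sepU_UM (hperf a) (hA a b (Ne.symm hb))
    let 𝔤 : Submodule ℚ (Tup (A a).toAbVar (n a) (s a)) :=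
      { carrier := {L | ∃ x ∈ LU, Rl (fun a => (A a).toAbVar) a (d a) x L}
        zero_mem' := ⟨0, LU.zero_mem, Rl.zero⟩
        add_mem' := fun ⟨x, hx, h⟩ ⟨y, hy, h'⟩ => ⟨x + y, LU.add_mem hx hy, h.add h'⟩
        smul_mem' := fun c _ ⟨x, hx, h⟩ => ⟨c • x, LU.smul_mem c hx, h.smul c⟩ }
    let 𝔫 : Submodule ℚ (Tup (A a).toAbVar (n a) (s a)) :=
      { carrier := {L | ∃ x ∈ kId A d V a, Rl (fun a => (A a).toAbVar) a (d a) x L}
        zero_mem' := ⟨0, (kId A d V a).zero_mem, Rl.zero⟩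
        add_mem' := fun ⟨x, hx, h⟩ ⟨y, hy, h'⟩ =>
          ⟨x + y, (kId A d V a).add_mem hx hy, h.add h'⟩
        smul_mem' := fun c _ ⟨x, hx, h⟩ => ⟨c • x, (kId A d V a).smul_mem c hx, h.smul c⟩ }
    have hLg : Lg 𝔤 (d a) :=
      { na := fun L ⟨x, _, h⟩ => h.na
        br := fun L ⟨x, hx, h⟩ L' ⟨y, hy, h'⟩ => ⟨_, LU_br x hx y hy, h.br h'⟩
        per := fun D lam => ⟨_, gU_mem D lam, Rl.gen D lam⟩ }
    obtain ⟨K₁, hK₁, hr⟩ := hrat a
    obtain ⟨u⟩ := main2 hLg hr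
    obtain ⟨τ, x, hx, h2⟩ := core (𝔤 := 𝔤) (𝔫 := 𝔫) hLg u
      (fun L ⟨x, hx, h⟩ => ⟨x, hx.1, h⟩)
      (fun L ⟨x, hx, h⟩ L' ⟨y, hy, h'⟩ => ⟨_, kId_br hx hy, h.br h'⟩)
      (fun L ⟨x, hx, h⟩ => by
        have h3 := h.tw
        rw [kId_tw hx] at h3
        linarith)
      (fun X hX => by
        have h3 : X ∈ ggU (UA (fun a => (A a).toAbVar) a) := by
          rw [hNA a]
          exact hX
        obtain ⟨x, hx, h4⟩ := h1 h3
        obtain ⟨L, hL⟩ := exists_Rl (fun a => (A a).toAbVar) a (d a) hx.1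
        refine ⟨L, ⟨x, hx, hL⟩, ?_⟩
        have h5 := hL.tw
        rw [kId_tw hx] at h5
        have h6 : L.2.1 = 0 := by linarith
        have h7 : op L = L.1 := by
          unfold op
          rw [h6, zero_smul, add_zero]
        rw [prU_apply, kId_tw hx, zero_div, zero_smul, sub_zero] at h4
        rw [← h7, ← hL.ab]
        exact h4) lam
    exact ⟨x, hx, τ, h2⟩
  choose x hx τ hτ using key
  refine ⟨∑ a, x a, LU.sum_mem fun a _ => (hx a).1, fun j => ?_, fun a => ⟨τ a, ?_⟩⟩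
  · rw [Prod.fst_sum, Finset.sum_apply]
    exact Finset.sum_eq_zero fun a _ => kId_V (hx a) j
  · rw [← (hτ a).mot, Prod.fst_sum, Finset.sum_apply]
    exact Finset.sum_eq_single a (fun b _ hb => kId_M (hx b) (Ne.symm hb))
      fun h => absurd (Finset.mem_univ a) h

end Fam

end Pool.Agent.N192.MO
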