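import Pool.Agent.N192.GP.Exc
import Pool.Agent.N192.GP.TorW
import Pool.Agent.N208.UR.One

set_option autoImplicit false
set_option linter.unusedSectionVars false
set_option linter.unusedVariables false

/-!
# Period torsors of 1-motives and of arbitrary structures: statements of the parts
-/

open Module Function TensorProduct Matrix

noncomputable section

/-! ### Orthogonal Lie algebras of rank three (in the namespace of the library `GP`) -/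

namespace Pool.Agent.N192.GP

open Pool.Agent.Y102 Pool.Agent.W516.DR Pool.Agent.H204R3.GP Pool.Agent.W516.KC
  Pool.Agent.H204R3.SP

/-- The smallest dimension of a nontrivial representation of `so(r)`, for `r = 3` and `r ≥ 6`. -/
def beta3 (r : ℕ) : ℕ := if r = 3 then 2 else beta r

/-- Part SIM. The Lie algebra of one colour is simple and perfect also for three generators. -/
def S_SIM : Prop := ∀ {U : Type} [AddCommGroup U] [Module ℂ U] [FiniteDimensional ℂ U]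
    [Nontrivial U] {N k : ℕ} {E : Fin N → Module.End ℂ U} {c : Fin N → Fin k} (_ : SP.CE E)
    {s : Fin k} (_ : (Finset.univ.filter fun j => c j = s).card = 3 ∨
      6 ≤ (Finset.univ.filter fun j => c j = s).card),
    (∀ (J : Submodule ℂ (Module.End ℂ U)) (_ : J ≤ SP.soS E c s)
      (_ : ∀ x ∈ SP.soS E c s, ∀ y ∈ J, x * y - y * x ∈ J), J = ⊥ ∨ J = SP.soS E c s) ∧
    SP.soS E c s ≤ Submodule.span ℂ {z | ∃ x ∈ SP.soS E c s, ∃ y ∈ SP.soS E c s,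
      z = x * y - y * x}

/-- Part HOM. Linked members have homomorphisms, also for rank three. -/
def S_HOM : Prop := ∀ {I J : Type} [Fintype I] [DecidableEq I] [Fintype J] [DecidableEq J]
    {g : I → ℕ} {A : ∀ i, AbVar (g i)} {d : J → ℕ} {V : ∀ j, DRS (d j)} {i i' : I} {r : ℕ}
    (_ : Linked (ηη A V) (Sum.inl i) (Sum.inl i')) (_ : SpinMat (A i) r) (_ : SpinMat (A i') r)
    (_ : r = 3 ∨ 6 ≤ r) (_ : gg (ηη A V) (Sum.inl i) ≠ ⊥),
    ∃ f : (A i).H1 →ₗ[ℚ] (A i').H1, f ≠ 0 ∧ IsHomAb (A i) (A i') f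

/-- Part DAT. The dimension of a representation, also with Lie algebras of rank three. -/
def S_DAT : Prop := ∀ {L : Type} [LieRing L] [LieAlgebra ℂ L] [FiniteDimensional ℂ L] {σ : Type}
    [DecidableEq σ] {U : σ → Type} [∀ s, AddCommGroup (U s)] [∀ s, Module ℂ (U s)] {r : σ → ℕ}
    {q : ∀ s, L →ₗ[ℂ] Module.End ℂ (U s)} {Z : ∀ s, ℕ → ℕ → Module.End ℂ (U s)} (m : ℕ) {M : Type}
    [AddCommGroup M] [Module ℂ M] [LieRingModule L M] [LieModule ℂ L M] [FiniteDimensional ℂ M]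
    {S : Finset σ} (_ : ∀ s ∈ S, r s = 3 ∨ 6 ≤ r s) (_ : finrank ℂ M ≤ m) (_ : DatG r S q Z)
    (_ : ∀ x : L, (∀ m : M, ⁅x, m⁆ = 0) → ∀ s ∈ S, q s x = 0),
    ∑ s ∈ S, beta3 (r s) ≤ finrank ℂ M

/-- Part FAM. Several members which are not separated from the member `u`. -/
def S_FAM : Prop := ∀ {T : Type} [Fintype T] [DecidableEq T] {n : T → ℕ}
    {η : ∀ t, Basis (Fin (n t)) ℂ ((Fin (n t) → ℚ) →ₗ[ℚ] ℂ)} {S : Finset T} {u : T} {k r : T → ℕ}
    (_ : ∀ s ∈ S, r s = 3 ∨ 6 ≤ r s)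
    (_ : ∀ s ∈ S, SpinK (gg η s) (k s) (r s)) (_ : ∀ s ∈ S, NoIdeals (gg η s))
    (_ : ∀ s ∈ S, ∀ t ∈ S, s ≠ t → Sep η s t) (_ : ∀ s ∈ S, ¬Sep η s u),
    ∑ s ∈ S, k s * beta3 (r s) ≤ n u

end Pool.Agent.N192.GP

/-! ### 1-motives -/

namespace Pool.Agent.N192.MO

open Pool.Agent.Y102 Pool.Agent.W516.DR Pool.Agent.H204R3.GP Pool.Agent.W516.KC
  Pool.Agent.H204R3.SP Pool.Agent.TH119.MX Pool.Agent.R917.OM Pool.Agent.R917.BX

/-- Part CORE. An ideal of the Lie algebra which is mapped onto the Lie algebra of the Hodge group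
contains the components of the complex structure, up to weight `-2`. -/
def S_CORE : Prop := ∀ {g n s : ℕ} {A : AbVarG g} {d : Dt g n s}
    {𝔤 𝔫 : Submodule ℚ (Tup A.toAbVar n s)} (_ : Lg 𝔤 d) (_ : UD 𝔤 d) (_ : 𝔫 ≤ 𝔤)
    (_ : ∀ L ∈ 𝔤, ∀ L' ∈ 𝔫, Pool.Agent.R917.OM.br L L' ∈ 𝔫) (_ : ∀ L ∈ 𝔫, L.2.1 = 0)
    (_ : ∀ X ∈ A.toAbVar.NA, ∃ L ∈ 𝔫, L.1 = X) (lam : ℂ →ₗ[ℚ] ℚ),
    ∃ τ : Fin n → Fin s → ℚ, tJ A.toAbVar d lam + ((0, 0, 0, τ) : Tup A.toAbVar n s) ∈ 𝔫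

/-- A matrix of level two. -/
def N2 (g : ℕ) {n s : ℕ} (c : Fin n → Fin s → ℂ) : Matrix (RI g n s) (RI g n s) ℂ :=
  Matrix.of fun r r' => Sum.elim (fun _ => 0) (Sum.elim (fun _ => 0)
    (fun i => Sum.elim (fun _ => 0) (Sum.elim (fun l => c i l) (fun _ => 0)) r')) r

/-- Part XJ. -/
def S_XJ : Prop := ∀ {g n s : ℕ} (A : AbVar g) (d : Dt g n s),
    XJ A d * XJ A d * XJ A d = -XJ A d ∧ ∀ c : Fin n → Fin s → ℂ, XJ A d * N2 g c = 0 ∧
      N2 g c * XJ A d = 0 ∧ N2 g c * N2 g c = 0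

/-- Part EXP. The semisimple part of an element of the Lie algebra, in a special case. -/
def S_EXP : Prop := ∀ {R : Type} [Fintype R] [DecidableEq R] {G : Subgroup (GL R ℂ)}
    (_ : ∃ S : Set (MvPolynomial (R × R) ℚ), ∀ x : GL R ℂ, x ∈ G ↔
      ∀ p ∈ S, MvPolynomial.aeval (fun b : R × R => (x : Matrix R R ℂ) b.1 b.2) p = 0)
    {X N : Matrix R R ℂ} (_ : X * X * X = -X) (_ : X * N = 0) (_ : N * X = 0) (_ : N * N = 0)
    (_ : ∀ δ, Stab {M : Matrix R R ℂ | ∃ x ∈ G, (x : Matrix R R ℂ) = M} δ (X + N)) (t : ℂ),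
    ∃ x ∈ G, (x : Matrix R R ℂ) = NormedSpace.exp (t • X)

end Pool.Agent.N192.MO
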