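import Pool.Agent.N192.GP.Exc

set_option autoImplicit false
set_option linter.unusedVariables false

/-!
# Elliptic curves without complex multiplication: statement
-/

open Module Function TensorProduct

noncomputable section

namespace Pool.Agent.N192.GP

open Pool.Agent.Y102 Pool.Agent.W516.DR Pool.Agent.H204R3.GP

/-- Part ELL. Elliptic curves without complex multiplication are of spin type of rank three. -/
def S_ELL : Prop := ∀ (A : AbVar 1)
    (_ : ∀ P : Module.End ℚ A.H1,
      (∃ F : (Fin 1 → ℂ) →ₗ[ℂ] (Fin 1 → ℂ), ∀ w, A.per (P w) = F (A.per w)) →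
      IsDeRhamBettiEnd QBar A.dR P → ∃ c : ℚ, P = c • 1),
    SpinMatK A 1 3 ∧ NoIdeals A.NA

end Pool.Agent.N192.GP
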