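import Pool.Agent.N192.MO.Sep

set_option autoImplicit false
set_option linter.unusedSectionVars false

/-!
# Algebraic groups which contain the periods of 1-motives and of structures
-/

open Module Function TensorProduct Matrix

noncomputable section

namespace Pool.Agent.N192.MO

open Pool.Agent.Y102 Pool.Agent.W516.DR Pool.Agent.H204R3.GP Pool.Agent.W516.KC
  Pool.Agent.H204R3.SP Pool.Agent.TH119.MX Pool.Agent.R917.OM Pool.Agent.R917.BX
open Pool.Agent.N192.GP (NN DRS UU RU LU Bt eB act act_apply eB_apply LG map_resU resU DRS.basis)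
open Pool.Agent.N192.GT (tC tC_apply PW PW_apply PtW bB eB_bB_same eB_bB_ne bB_same bB_ne alg_invR
  stab_sumW lieW)
open Pool.Agent.R917 (lamF lamF_apply QQ QA)

variable {K J : Type} [Fintype K] [DecidableEq K] [Fintype J] [DecidableEq J]
  {g n s : K → ℕ} {d : J → ℕ}

/-- The ranks. -/
def nM (g n s : K → ℕ) (d : J → ℕ) : K ⊕ J → ℕ := Sum.elim (fun a => RN (g a) (n a) (s a)) d

/-- The rows. -/
abbrev Row (g n s : K → ℕ) (d : J → ℕ) : Type := (Σ a, RI (g a) (n a) (s a)) ⊕ (Σ j, Fin (d j))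

/-- The columns. -/
abbrev Col (g n s : K → ℕ) (d : J → ℕ) : Type := (Σ a, CI (g a) (n a) (s a)) ⊕ (Σ j, Fin (d j))

/-- The equivalence. -/
def eR (g n s : K → ℕ) (d : J → ℕ) : (Σ t, Fin (nM g n s d t)) ≃ Row g n s d :=
  (Equiv.sumSigmaDistrib fun t => Fin (nM g n s d t)).trans
    (Equiv.sumCongr (Equiv.sigmaCongrRight fun a => (eRow (g a) (n a) (s a)).symm) (Equiv.refl _))

theorem eR_inl (a : K) (r : RI (g a) (n a) (s a)) : (eR g n s d).symm (Sum.inl ⟨a, r⟩) =
    ⟨Sum.inl a, eRow (g a) (n a) (s a) r⟩ := rfl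

theorem eR_inr (j : J) (p : Fin (d j)) : (eR g n s d).symm (Sum.inr ⟨j, p⟩) =
    ⟨Sum.inr j, p⟩ := rfl

/-- The basis of the Betti side. -/
def bR (g n s : K → ℕ) (d : J → ℕ) : Basis (Row g n s d) ℚ (Bt (nM g n s d)) :=
  (bB (nM g n s d)).reindex (eR g n s d)

theorem bR_apply (x : Row g n s d) : bR g n s d x = bB (nM g n s d) ((eR g n s d).symm x) := by
  unfold bR
  rw [Basis.reindex_apply]

theorem rep_bR (x : Bt (nM g n s d)) (a : Row g n s d) :
    (bR g n s d).repr x a = (bB (nM g n s d)).repr x ((eR g n s d).symm a) := by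
  unfold bR
  rw [Basis.repr_reindex_apply]

section Act

variable {A : ∀ a, AbVar (g a)}

theorem tm_apply_eq {a : K} {L : Tup (A a) (n a) (s a)}
    {Y : Module.End ℚ (Fin (RN (g a) (n a) (s a)) → ℚ)} (hY : Y = tm L)
    (r r' : RI (g a) (n a) (s a)) : Y (Pi.single (eRow (g a) (n a) (s a) r) 1)
      (eRow (g a) (n a) (s a) r') = mtQ L r r' := by
  rw [hY]
  have h5 : (Pi.single (eRow (g a) (n a) (s a) r) (1 : ℚ) :
      Fin (RN (g a) (n a) (s a)) → ℚ) = bM (g a) (n a) (s a) r := by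
    unfold bM
    rw [Basis.reindex_apply, Equiv.symm_symm, Pi.basisFun_apply]
  have h6 : ∀ x : Fin (RN (g a) (n a) (s a)) → ℚ, x (eRow (g a) (n a) (s a) r') =
      (bM (g a) (n a) (s a)).repr x r' := by
    intro x
    unfold bM
    rw [Basis.repr_reindex_apply, Equiv.symm_symm, Pi.basisFun_repr]
  rw [h5, h6 (tm L (bM (g a) (n a) (s a) r))]
  unfold tm
  simp only [LinearMap.coe_mk, AddHom.coe_mk]
  rw [Matrix.toLin_self, map_sum, Finsupp.finsetSum_apply, Finset.sum_eq_single r']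
  · rw [map_smul, Finsupp.smul_apply, Basis.repr_self, Finsupp.single_eq_same, smul_eq_mul,
      mul_one, Matrix.transpose_apply]
  · intro b _ hb
    rw [map_smul, Finsupp.smul_apply, Basis.repr_self, Finsupp.single_eq_of_ne (Ne.symm hb),
      smul_zero]
  · intro h
    exact absurd (Finset.mem_univ _) h

/-- The matrix of a family of tuples. -/
theorem tC_act {X : ∀ t, Module.End ℚ (Fin (nM g n s d t) → ℚ)}
    {L : ∀ a, Tup (A a) (n a) (s a)}
    (h1 : ∀ a, (X (Sum.inl a) : Module.End ℚ (Fin (RN (g a) (n a) (s a)) → ℚ)) = tm (L a))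
    (h2 : ∀ j, X (Sum.inr j) = 0) :
    (tC (bR g n s d) (act X))ᵀ = fromBlocks (blockDiagonal' fun a => mt (L a)) 0 0 0 := by
  ext x y
  rw [Matrix.transpose_apply, tC_apply, rep_bR, bR_apply]
  rcases x with ⟨a, r⟩ | ⟨j, p⟩ <;> rcases y with ⟨a', r'⟩ | ⟨j', p'⟩
  · rw [fromBlocks_apply₁₁, eR_inl, eR_inl]
    by_cases haa : a = a'
    · subst haa
      rw [blockDiagonal'_apply_eq]
      have h3 := bB_same (n := nM g n s d) X (Sum.inl a) (eRow (g a) (n a) (s a) r)
        (eRow (g a) (n a) (s a) r')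
      have h4 : X (Sum.inl a) (Pi.single (eRow (g a) (n a) (s a) r) 1)
          (eRow (g a) (n a) (s a) r') = mtQ (L a) r r' := tm_apply_eq (h1 a) r r'
      have h7 := h3.trans h4
      exact congrArg (fun q : ℚ => (q : ℂ)) h7
    · rw [blockDiagonal'_apply_ne _ _ _ haa]
      have h3 := bB_ne (n := nM g n s d) X (t := Sum.inl a) (t' := Sum.inl a')
        (fun h => haa (Sum.inl_injective h)) (eRow (g a) (n a) (s a) r)
        (eRow (g a') (n a') (s a') r')
      rw [h3, Rat.cast_zero]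
  · rw [fromBlocks_apply₁₂, Matrix.zero_apply, eR_inl, eR_inr]
    have h3 := bB_ne (n := nM g n s d) X (t := Sum.inl a) (t' := Sum.inr j') Sum.inl_ne_inr
      (eRow (g a) (n a) (s a) r) p'
    rw [h3, Rat.cast_zero]
  · rw [fromBlocks_apply₂₁, Matrix.zero_apply, eR_inl, eR_inr]
    have h3 := bB_ne (n := nM g n s d) X (t := Sum.inr j) (t' := Sum.inl a') Sum.inr_ne_inl
      p (eRow (g a') (n a') (s a') r')
    rw [h3, Rat.cast_zero]
  · rw [fromBlocks_apply₂₂, Matrix.zero_apply, eR_inr, eR_inr]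
    by_cases hjj : j = j'
    · subst hjj
      have h3 := bB_same (n := nM g n s d) X (Sum.inr j) p p'
      rw [h3, h2 j]
      exact Rat.cast_zero
    · have h3 := bB_ne (n := nM g n s d) X (t := Sum.inr j) (t' := Sum.inr j')
        (fun h => hjj (Sum.inr_injective h)) p p'
      rw [h3, Rat.cast_zero]

end Act

section Per

variable (A : ∀ a, AbVar (g a)) (D : ∀ a, Dt (g a) (n a) (s a)) (V : ∀ j, DRS (d j))

/-- The bases. -/
def ηM : ∀ t : K ⊕ J, Basis (Fin (nM g n s d t)) ℂ ((Fin (nM g n s d t) → ℚ) →ₗ[ℚ] ℂ)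
  | Sum.inl a => (DM (A a) (D a)).basis
  | Sum.inr j => (V j).basis

/-- The members of the universal family. -/
def σM : K ⊕ J → UU
  | Sum.inl a => UM A a (D a)
  | Sum.inr j => ⟨d j, V j⟩

/-- The identifications. -/
def ρM : ∀ t, Module.End ℚ (Fin (σM A D V t).1 → ℚ) →ₐ[ℚ]
    Module.End ℚ (Fin (nM g n s d t) → ℚ)
  | Sum.inl a => AlgHom.id ℚ (Module.End ℚ (Fin (RN (g a) (n a) (s a)) → ℚ))
  | Sum.inr j => AlgHom.id ℚ (Module.End ℚ (Fin (d j) → ℚ))

theorem ρM_NN (t : K ⊕ J) (D' : Derivation QBar ℂ ℂ) (lam : ℂ →ₗ[ℚ] ℚ) :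
    ρM A D V t (NN (σM A D V t).2.basis D' lam) = NN (ηM A D V t) D' lam := by
  rcases t with a | j <;> rfl

theorem mem_LG {x : RU} (hx : x ∈ LU) : resU (σM A D V) (ρM A D V) x ∈ LG (ηM A D V) := by
  rw [← map_resU (ηM A D V) (σM A D V) (ρM A D V) (ρM_NN A D V)]
  exact ⟨x, hx, rfl⟩

/-- The de Rham side. -/
def fR : Basis (Row g n s d) ℂ (Bt (nM g n s d) →ₗ[ℚ] ℂ) := (eB (ηM A D V)).reindex (eR g n s d)

theorem fR_apply (x : Row g n s d) : fR A D V x = eB (ηM A D V) ((eR g n s d).symm x) := by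
  unfold fR
  rw [Basis.reindex_apply]

/-- The matrix of the periods. -/
def perM : Matrix (Row g n s d) (Col g n s d) ℂ :=
  fromBlocks (blockDiagonal' fun a => pmat (A a) (D a)) 0 0
    (blockDiagonal' fun j => Matrix.of fun p q => (V j).eta q (Pi.single p 1))

/-- The equivalence of the columns and the rows. -/
def eC (g n s : K → ℕ) (d : J → ℕ) : Col g n s d ≃ Row g n s d :=
  Equiv.sumCongr (Equiv.sigmaCongrRight fun a => ce (g a) (n a) (s a)) (Equiv.refl _)

theorem per_eq : perM A D V = (PW (bR g n s d) (fR A D V)).submatrix id (eC g n s d) := by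
  ext x c
  rw [Matrix.submatrix_apply, id, PW_apply, bR_apply, fR_apply]
  unfold perM
  rcases x with ⟨a, r⟩ | ⟨j, p⟩ <;> rcases c with ⟨a', k⟩ | ⟨j', q⟩
  · rw [fromBlocks_apply₁₁]
    by_cases haa : a = a'
    · subst haa
      rw [blockDiagonal'_apply_eq]
      refine Eq.symm ((eB_bB_same (ηM A D V) (Sum.inl a) (eRow (g a) (n a) (s a) r)
        (eRow (g a) (n a) (s a) (ce (g a) (n a) (s a) k))).trans ?_)
      have h1 : (DM (A a) (D a)).basis (eRow (g a) (n a) (s a) (ce (g a) (n a) (s a) k)) =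
          col (A a) (D a) k := by
        rw [(DM (A a) (D a)).coe_basis]
        change col (A a) (D a) ((eCol (g a) (n a) (s a)).symm _) = _
        unfold eCol
        rw [Equiv.symm_trans_apply, Equiv.symm_apply_apply, Equiv.symm_apply_apply]
      have h5 : (Pi.single (eRow (g a) (n a) (s a) r) (1 : ℚ) :
          Fin (RN (g a) (n a) (s a)) → ℚ) = bM (g a) (n a) (s a) r := by
        unfold bM
        rw [Basis.reindex_apply, Equiv.symm_symm, Pi.basisFun_apply]
      have h6 := LinearMap.congr_fun h1 (bM (g a) (n a) (s a) r)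
      rw [col_bM] at h6
      rw [← h6, ← h5]
      rfl
    · rw [blockDiagonal'_apply_ne _ _ _ haa]
      exact (eB_bB_ne (ηM A D V) (t := Sum.inl a) (t' := Sum.inl a')
        (fun h' => haa (Sum.inl_injective h')) (eRow (g a) (n a) (s a) r)
        (eRow (g a') (n a') (s a') (ce (g a') (n a') (s a') k))).symm
  · rw [fromBlocks_apply₁₂, Matrix.zero_apply]
    exact (eB_bB_ne (ηM A D V) (t := Sum.inl a) (t' := Sum.inr j') Sum.inl_ne_inr
      (eRow (g a) (n a) (s a) r) q).symm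
  · rw [fromBlocks_apply₂₁, Matrix.zero_apply]
    exact (eB_bB_ne (ηM A D V) (t := Sum.inr j) (t' := Sum.inl a') Sum.inr_ne_inl p
      (eRow (g a') (n a') (s a') (ce (g a') (n a') (s a') k))).symm
  · rw [fromBlocks_apply₂₂]
    by_cases hjj : j = j'
    · subst hjj
      rw [blockDiagonal'_apply_eq]
      refine Eq.symm ((eB_bB_same (ηM A D V) (Sum.inr j) p q).trans ?_)
      have h1 : ηM A D V (Sum.inr j) q = (V j).eta q := by
        change (V j).basis q = _
        rw [(V j).coe_basis]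
      exact LinearMap.congr_fun h1 _
    · rw [blockDiagonal'_apply_ne _ _ _ hjj]
      exact (eB_bB_ne (ηM A D V) (t := Sum.inr j) (t' := Sum.inr j')
        (fun h' => hjj (Sum.inr_injective h')) p q).symm

variable {A D V}

theorem pt_of {G : Subgroup (GL (Row g n s d) ℂ)}
    (hG : ∃ S : Set (MvPolynomial (Row g n s d × Row g n s d) ℚ), ∀ x : GL (Row g n s d) ℂ,
      x ∈ G ↔ ∀ p ∈ S, MvPolynomial.aeval
        (fun b : Row g n s d × Row g n s d => (x : Matrix _ _ ℂ) b.1 b.2) p = 0)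
    {T : Matrix (Col g n s d) (Row g n s d) ℂ} (hT : ∀ i j, IsAlgebraic ℚ (T i j))
    {x : GL (Row g n s d) ℂ} (hx : x ∈ G) (hxT : (x : Matrix _ _ ℂ) = perM A D V * T) :
    PtW (bR g n s d) (fR A D V)
      {M : Matrix (Row g n s d) (Row g n s d) ℂ | ∃ x ∈ G, (x : Matrix _ _ ℂ) = M} := by
  refine ⟨R917.algGrp_of hG, ?_⟩
  have h1 : PW (bR g n s d) (fR A D V) * T.submatrix (eC g n s d).symm id = perM A D V * T := by
    rw [per_eq]
    have h2 : (PW (bR g n s d) (fR A D V)).submatrix id (eC g n s d) * T =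
        ((PW (bR g n s d) (fR A D V)).submatrix id (eC g n s d)).submatrix id
          (eC g n s d).symm * T.submatrix (eC g n s d).symm id := by
      rw [Matrix.submatrix_mul_equiv, Matrix.submatrix_id_id]
    rw [h2, Matrix.submatrix_submatrix, Equiv.self_comp_symm]
    rfl
  have h2 : (T.submatrix (eC g n s d).symm id).det ≠ 0 := by
    intro h0
    have h3 : (x : Matrix (Row g n s d) (Row g n s d) ℂ).det = 0 := by
      rw [hxT, ← h1, Matrix.det_mul, h0, mul_zero]
    exact (Matrix.GeneralLinearGroup.det x).ne_zero h3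
  obtain ⟨T', h3, h4⟩ := alg_invR (T := T.submatrix (eC g n s d).symm id) (fun i j => hT _ _) h2
  exact ⟨_, T', h3, h4, ⟨x, hx, by rw [hxT, h1]⟩⟩

/-- Elements of the universal Lie algebra give elements of the Lie algebra of the group. -/
theorem stab_LU {H : Set (Matrix (Row g n s d) (Row g n s d) ℂ)}
    (hH : PtW (bR g n s d) (fR A D V) H) {x : RU} (hx : x ∈ LU)
    (hV : ∀ j, x.1 ⟨d j, V j⟩ = 0) {L : ∀ a, Tup (A a) (n a) (s a)}
    (hL : ∀ a, (x.1 (UM A a (D a)) : Module.End ℚ (Fin (RN (g a) (n a) (s a)) → ℚ)) = tm (L a))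
    (δ : ℕ) : Stab H δ (fromBlocks (blockDiagonal' fun a => mt (L a)) 0 0 0) := by
  have h1 := PtW.LG_mem (ηM A D V) (eR g n s d) (eR g n s d) hH (mem_LG A D V hx) δ
  have h2 := tC_act (A := A) (X := (resU (σM A D V) (ρM A D V) x).1) (L := L) hL hV
  rw [← h2]
  exact h1

end Per

end Pool.Agent.N192.MO
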